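import Mathlib

/-!
# A counting lemma for large sets with small intersections, second version
-/

set_option autoImplicit false

namespace Pool.Agent.Helper43.SL

open Finset

open Classical in
/-- Large subsets of a set which meet pairwise in at most one element have a small total size. -/
theorem sum_card_le9 {α β : Type} (O : Finset α) (T : Finset β) (I : β → Finset α)
    (hI : ∀ H ∈ T, I H ⊆ O) (h1 : ∀ H ∈ T, ∀ H' ∈ T, H ≠ H' → (I H ∩ I H').card ≤ 1)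
    (h2 : ∀ H ∈ T, 9 * O.card ≤ (I H).card ^ 2) :
    8 * ∑ H ∈ T, (I H).card ≤ 9 * O.card := by
  set S : ℝ := ∑ H ∈ T, ((I H).card : ℝ) with hS
  set o : ℝ := (O.card : ℝ) with ho
  set k : ℝ := (T.card : ℝ) with hk
  have ho0 : 0 ≤ o := Nat.cast_nonneg _
  have hS0 : 0 ≤ S := Finset.sum_nonneg fun _ _ => Nat.cast_nonneg _
  let r : α → ℝ := fun g => ∑ H ∈ T, if g ∈ I H then (1 : ℝ) else 0
  have hcard : ∀ B : Finset α, B ⊆ O → (B.card : ℝ) = ∑ g ∈ O, if g ∈ B then (1 : ℝ) else 0 := by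
    intro B hB
    rw [← Finset.sum_filter, Finset.sum_const, nsmul_eq_mul, mul_one]
    congr 2
    ext g
    simp only [Finset.mem_filter]
    exact ⟨fun h => ⟨hB h, h⟩, fun h => h.2⟩
  have e1 : ∑ g ∈ O, r g = S := by
    rw [Finset.sum_comm]
    exact Finset.sum_congr rfl fun H hH => (hcard (I H) (hI H hH)).symm
  have e2 : ∑ g ∈ O, r g ^ 2 ≤ S + k ^ 2 := by
    have e3 : ∀ g, r g ^ 2 = ∑ H ∈ T, ∑ H' ∈ T,
        (if g ∈ I H ∩ I H' then (1 : ℝ) else 0) := by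
      intro g
      rw [sq, Finset.sum_mul_sum]
      refine Finset.sum_congr rfl fun H _ => Finset.sum_congr rfl fun H' _ => ?_
      by_cases h3 : g ∈ I H <;> by_cases h4 : g ∈ I H' <;> simp [h3, h4]
    rw [Finset.sum_congr rfl fun g _ => e3 g, Finset.sum_comm]
    have e4 : ∀ H ∈ T, ∑ g ∈ O, ∑ H' ∈ T, (if g ∈ I H ∩ I H' then (1 : ℝ) else 0) ≤
        (I H).card + k := by
      intro H hH
      rw [Finset.sum_comm]
      have e5 : ∀ H' ∈ T, ∑ g ∈ O, (if g ∈ I H ∩ I H' then (1 : ℝ) else 0) ≤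
          (if H' = H then ((I H).card : ℝ) else 0) + 1 := by
        intro H' hH'
        rw [← hcard (I H ∩ I H') (Finset.inter_subset_left.trans (hI H hH))]
        by_cases h : H' = H
        · subst h
          rw [if_pos rfl, Finset.inter_self]
          linarith
        · rw [if_neg h, zero_add]
          exact_mod_cast h1 H hH H' hH' (Ne.symm h)
      refine (Finset.sum_le_sum e5).trans ?_
      rw [Finset.sum_add_distrib, Finset.sum_const, nsmul_eq_mul, mul_one,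
        Finset.sum_ite_eq' T H, if_pos hH]
    refine (Finset.sum_le_sum e4).trans ?_
    rw [Finset.sum_add_distrib, Finset.sum_const, nsmul_eq_mul]
    exact le_of_eq (by rw [← hk, ← hS]; ring)
  have e3 : S ^ 2 ≤ o * (S + k ^ 2) := by
    rw [← e1]
    refine (sq_sum_le_card_mul_sum_sq (s := O) (f := r)).trans ?_
    rw [e1]
    exact mul_le_mul_of_nonneg_left e2 ho0
  have e4 : 9 * o * k ^ 2 ≤ S ^ 2 := by
    have e5 : k * Real.sqrt (9 * o) ≤ S := by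
      rw [hk, hS, ← nsmul_eq_mul, ← Finset.sum_const]
      refine Finset.sum_le_sum fun H hH => ?_
      apply Real.sqrt_le_iff.mpr
      refine ⟨Nat.cast_nonneg _, ?_⟩
      have h3 : ((9 * O.card : ℕ) : ℝ) ≤ (((I H).card ^ 2 : ℕ) : ℝ) := by
        exact_mod_cast h2 H hH
      push_cast at h3
      exact h3
    have e6 : (k * Real.sqrt (9 * o)) ^ 2 ≤ S ^ 2 :=
      pow_le_pow_left₀ (mul_nonneg (Nat.cast_nonneg _) (Real.sqrt_nonneg _)) e5 2
    rw [mul_pow, Real.sq_sqrt (by linarith)] at e6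
    linarith
  have e5 : S * (8 * S - 9 * o) ≤ 0 := by nlinarith
  have e6 : 8 * S ≤ 9 * o := by
    rcases hS0.eq_or_lt with h | h
    · rw [← h]
      linarith
    · by_contra hc
      push Not at hc
      nlinarith
  have e7 : ((8 * ∑ H ∈ T, (I H).card : ℕ) : ℝ) ≤ ((9 * O.card : ℕ) : ℝ) := by
    push_cast
    exact e6
  exact_mod_cast e7

/-- Arithmetic: the lines of a big plane. -/
theorem big_sq9 {t o v d : ℕ} (ht : 2 ≤ t) (ho : 400 * t ≤ o) (hv : 10000 * t ^ 2 ≤ v)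
    (hov : o ≤ v) (h : 7 * o * v < 20 * t * d ^ 3) : 9 * o ≤ (d - 1) ^ 2 := by
  have hd : 50 ≤ d := by
    by_contra hc
    push Not at hc
    have h1 : d ^ 3 ≤ 49 ^ 3 := Nat.pow_le_pow_left (by omega) 3
    have h2 : 7 * (400 * t) * (10000 * t ^ 2) ≤ 7 * o * v := by gcongr
    have h3 : 20 * t * d ^ 3 ≤ 20 * t * 49 ^ 3 := by gcongr
    have h4 : 7 * (400 * t) * (10000 * t ^ 2) < 20 * t * 49 ^ 3 :=
      lt_of_le_of_lt h2 (lt_of_lt_of_le h h3)
    have h5 : t * (2 ^ 2) ≤ t * t ^ 2 := by gcongr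
    nlinarith
  obtain ⟨e, rfl⟩ : ∃ e, d = e + 1 := ⟨d - 1, by omega⟩
  rw [Nat.add_sub_cancel]
  by_contra hc
  push Not at hc
  have he : 49 * (e + 1) ≤ 50 * e := by omega
  have h1 : (49 * (e + 1)) ^ 6 ≤ (50 * e) ^ 6 := Nat.pow_le_pow_left he 6
  have h2 : (e ^ 2) ^ 3 ≤ (9 * o) ^ 3 := Nat.pow_le_pow_left hc.le 3
  have h3 : (7 * o * v) ^ 2 ≤ (20 * t * (e + 1) ^ 3) ^ 2 := Nat.pow_le_pow_left h.le 2
  have h4 : 49 * o ^ 2 * (o * (10000 * t ^ 2)) ≤ (7 * o * v) ^ 2 := by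
    have : (7 * o * v) ^ 2 = 49 * o ^ 2 * (v * v) := by ring
    rw [this]
    gcongr
  have h5 : 490000 * o ^ 3 * t ^ 2 ≤ 400 * (e + 1) ^ 6 * t ^ 2 := by
    calc 490000 * o ^ 3 * t ^ 2 = 49 * o ^ 2 * (o * (10000 * t ^ 2)) := by ring
      _ ≤ (20 * t * (e + 1) ^ 3) ^ 2 := h4.trans h3
      _ = 400 * (e + 1) ^ 6 * t ^ 2 := by ring
  have h6 : 490000 * o ^ 3 ≤ 400 * (e + 1) ^ 6 :=
    Nat.le_of_mul_le_mul_right h5 (by positivity)
  have h7 : 49 ^ 6 * (e + 1) ^ 6 ≤ 50 ^ 6 * (729 * o ^ 3) := by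
    calc 49 ^ 6 * (e + 1) ^ 6 = (49 * (e + 1)) ^ 6 := by ring
      _ ≤ (50 * e) ^ 6 := h1
      _ = 50 ^ 6 * (e ^ 2) ^ 3 := by ring
      _ ≤ 50 ^ 6 * (9 * o) ^ 3 := by gcongr
      _ = 50 ^ 6 * (729 * o ^ 3) := by ring
  have h8 : 0 < o ^ 3 := by
    have : 0 < o := by omega
    positivity
  omega

/-- Arithmetic: the lines of a plane which is not big. -/
theorem small_sq9 {t o v d : ℕ} (ht : 2 ≤ t) (ho : 400 * t ≤ o) (hv : 10000 * t ^ 2 ≤ v)
    (h : 20 * t * d ^ 3 ≤ 7 * o * v) : 400 * d ^ 2 ≤ o * v := by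
  by_contra hc
  push Not at hc
  have h2 : 20 * t * d ^ 3 < 2800 * d ^ 2 := by nlinarith
  have hd0 : 0 < d := by
    rcases Nat.eq_zero_or_pos d with h0 | h0
    · subst h0
      simp at h2
    · exact h0
  have h3 : 20 * t * d < 2800 := by
    by_contra h4
    push Not at h4
    have : 2800 * d ^ 2 ≤ 20 * t * d * d ^ 2 := by gcongr
    have e : 20 * t * d * d ^ 2 = 20 * t * d ^ 3 := by ring
    omega
  have h4 : d ≤ 70 := by
    by_contra h5
    push Not at h5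
    have : 20 * 2 * 71 ≤ 20 * t * d := by gcongr; omega
    omega
  have h5 : d ^ 2 ≤ 70 ^ 2 := Nat.pow_le_pow_left h4 2
  have h6 : (400 * 2) * (10000 * 2 ^ 2) ≤ (400 * t) * (10000 * t ^ 2) := by gcongr
  have h1 : (400 * t) * (10000 * t ^ 2) ≤ o * v := by gcongr
  omega

/-- Arithmetic: the lines of a plane which is not big, first power. -/
theorem small_lin9 {t o v d : ℕ} (ht : 2 ≤ t) (hv : 10000 * t ^ 2 ≤ v) (hov : o ≤ v)
    (h : 20 * t * d ^ 3 ≤ 7 * o * v) : 30 * t * d ≤ v := by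
  by_contra hc
  push Not at hc
  have hv0 : 0 < v := by
    have : 0 < 10000 * t ^ 2 := by positivity
    omega
  have h1 : v ^ 3 ≤ (30 * t * d) ^ 3 := Nat.pow_le_pow_left hc.le 3
  have h2 : (30 * t * d) ^ 3 = 1350 * t ^ 2 * (20 * t * d ^ 3) := by ring
  have h9 : 7 * o * v ≤ 7 * v * v := by gcongr
  have h3 : 1350 * t ^ 2 * (20 * t * d ^ 3) ≤ 1350 * t ^ 2 * (7 * v * v) :=
    Nat.mul_le_mul_left _ (h.trans h9)
  have h4 : 1350 * t ^ 2 * (7 * v * v) = 9450 * t ^ 2 * v ^ 2 := by ring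
  have h5 : v ^ 3 ≤ 9450 * t ^ 2 * v ^ 2 := by
    calc v ^ 3 ≤ (30 * t * d) ^ 3 := h1
      _ = 1350 * t ^ 2 * (20 * t * d ^ 3) := h2
      _ ≤ 1350 * t ^ 2 * (7 * v * v) := h3
      _ = 9450 * t ^ 2 * v ^ 2 := h4
  have h6 : v * v ^ 2 ≤ 9450 * t ^ 2 * v ^ 2 := by
    calc v * v ^ 2 = v ^ 3 := by ring
      _ ≤ _ := h5
  have h7 : v ≤ 9450 * t ^ 2 := Nat.le_of_mul_le_mul_right h6 (by positivity)
  have h8 : 0 < t ^ 2 := by positivity
  omega

end Pool.Agent.Helper43.SL
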