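import Pool.Agent.Helper43.SL.UserPlus
import Pool.Agent.Helper63.CR.Asm

/-!
# Rank four: from pairs of short lines to a packing
-/

set_option autoImplicit false
set_option linter.unusedSectionVars false

namespace Pool.Agent.Helper43.SL

open Pool.Agent.Helper28.BPack Pool.Agent.Helper61.Motz Pool.Agent.Helper38.Thick Finset
  Pool.Agent.Helper52.SL Pool.Agent.Helper63.CR
open scoped Classical

variable {L : Type} [Lattice L] [BoundedOrder L] [Finite L] [IsUpperModularLattice L]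

/-- A basis in `A`. -/
theorem exists_base {A : Finset L} (hA : ∀ a ∈ A, IsAtom a) (hr : rk (A.sup id) = 4) :
    ∃ b : Fin 4 → L, (∀ i, b i ∈ A) ∧ rk ((Finset.univ : Finset (Fin 4)).sup b) = 4 := by
  obtain ⟨a0, h0, -⟩ := exists_not_le hr (p := ⊥) (by rw [rk_bot]; omega)
  obtain ⟨a1, h1, n1⟩ := exists_not_le hr (p := a0) (by rw [rk_atom (hA a0 h0)]; omega)
  have r1 : rk (a0 ⊔ a1) = 2 := rk_line (hA a0 h0) (hA a1 h1) (fun h => n1 h.symm.le)
  obtain ⟨a2, h2, n2⟩ := exists_not_le hr (p := a0 ⊔ a1) (by omega)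
  have r2 : rk (a0 ⊔ a1 ⊔ a2) = 3 := by rw [rk_sup_atom (hA a2 h2) n2, r1]
  obtain ⟨a3, h3, n3⟩ := exists_not_le hr (p := a0 ⊔ a1 ⊔ a2) (by omega)
  have r3 : rk (a0 ⊔ a1 ⊔ a2 ⊔ a3) = 4 := by rw [rk_sup_atom (hA a3 h3) n3, r2]
  refine ⟨![a0, a1, a2, a3], ?_, ?_⟩
  · intro i
    fin_cases i
    · exact h0
    · exact h1
    · exact h2
    · exact h3
  · have e : (Finset.univ : Finset (Fin 4)).sup ![a0, a1, a2, a3] = a0 ⊔ a1 ⊔ a2 ⊔ a3 := by
      apply le_antisymm
      · apply Finset.sup_le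
        intro i _
        fin_cases i
        · exact le_sup_left.trans (le_sup_left.trans le_sup_left)
        · exact le_sup_right.trans (le_sup_left.trans le_sup_left)
        · exact le_sup_right.trans le_sup_left
        · exact le_sup_right
      · have k : ∀ i, ![a0, a1, a2, a3] i ≤ (Finset.univ : Finset (Fin 4)).sup ![a0, a1, a2, a3] :=
          fun i => Finset.le_sup (f := ![a0, a1, a2, a3]) (Finset.mem_univ i)
        exact sup_le (sup_le (sup_le (k 0) (k 1)) (k 2)) (k 3)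
    rw [e, r3]

/-- **From pairs of lines to `Crit4`.** -/
theorem crit4_of_line_pairs {A : Finset L} (hA : ∀ a ∈ A, IsAtom a) (hr : rk (A.sup id) = 4)
    {t : ℕ} (ht : 2 ≤ t)
    (hV : ∀ FL FP : Finset L, FL.card ≤ 6 → FP.card ≤ 4 → ∀ x ∈ A,
      ∃ V : Finset (L × L), 0 < V.card ∧
        (∀ p ∈ V, p.1 ∈ Ln A x ∧ p.2 ∈ Ln A x ∧ p.1 ≠ p.2 ∧ p.1 ∉ FL ∧ p.2 ∉ FL ∧
          p.1 ⊔ p.2 ∉ FP ∧ (A.filter (fun a => a ≤ p.1)).card ≤ t ∧
          (A.filter (fun a => a ≤ p.2)).card ≤ t) ∧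
        (∀ g, 60 * t * (V.filter (fun p => p.1 = g ∨ p.2 = g)).card ≤ V.card) ∧
        (∀ H, 27 * (A.filter (fun a => a ≤ H)).card * (V.filter (fun p => p.1 ⊔ p.2 = H)).card ≤
          25 * V.card)) : Crit4 A := by
  obtain ⟨b, hb, hbr⟩ := exists_base hA hr
  set FL : Finset L := ((Finset.univ : Finset (Fin 4)).powersetCard 2).image (fun s => s.sup b)
    with hFL
  set FP : Finset L := ((Finset.univ : Finset (Fin 4)).powersetCard 3).image (fun s => s.sup b)
    with hFP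
  have cFL : FL.card ≤ 6 := by
    refine Finset.card_image_le.trans ?_
    rw [Finset.card_powersetCard, Finset.card_univ, Fintype.card_fin]
    decide
  have cFP : FP.card ≤ 4 := by
    refine Finset.card_image_le.trans ?_
    rw [Finset.card_powersetCard, Finset.card_univ, Fintype.card_fin]
    decide
  have mFL : ∀ i j, i ≠ j → b i ⊔ b j ∈ FL := by
    intro i j hij
    rw [hFL, Finset.mem_image]
    refine ⟨{i, j}, ?_, ?_⟩
    · rw [Finset.mem_powersetCard]
      exact ⟨Finset.subset_univ _, Finset.card_pair hij⟩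
    · rw [Finset.sup_insert, Finset.sup_singleton]
  have mFP : ∀ i j k, i ≠ j → i ≠ k → j ≠ k → b i ⊔ b j ⊔ b k ∈ FP := by
    intro i j k hij hik hjk
    rw [hFP, Finset.mem_image]
    refine ⟨{i, j, k}, ?_, ?_⟩
    · rw [Finset.mem_powersetCard]
      exact ⟨Finset.subset_univ _, Finset.card_eq_three.mpr ⟨i, j, k, hij, hik, hjk, rfl⟩⟩
    · rw [Finset.sup_insert, Finset.sup_insert, Finset.sup_singleton, sup_assoc]
  have hV1 := hV FL FP cFL cFP
  choose! V v0 v1 v2 v3 using hV1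
  -- a point on every line
  have hρ : ∀ x g, ∃ y, g ∈ Ln A x → y ∈ A ∧ y ≠ x ∧ x ⊔ y = g := by
    intro x g
    by_cases h : g ∈ Ln A x
    · obtain ⟨y, hy⟩ := mem_Ln.mp h
      exact ⟨y, fun _ => hy⟩
    · exact ⟨x, fun h' => absurd h' h⟩
  choose ρ hρ using hρ
  set X : Finset L := A.filter (fun q => ∀ i, q ≠ b i) with hX
  have hXA : ∀ q ∈ X, q ∈ A := fun q hq => (Finset.mem_filter.mp hq).1
  let al : L → L → L → Prop := fun q c d =>
    (q ⊔ c, q ⊔ d) ∈ V q ∧ c = ρ q (q ⊔ c) ∧ d = ρ q (q ⊔ d)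
  have hjoin : ∀ q c d : L, q ⊔ c ⊔ d = (q ⊔ c) ⊔ (q ⊔ d) := by
    intro q c d
    rw [← sup_sup_distrib_left, sup_assoc]
  -- comparison of the pairs
  have hcmp : ∀ q ∈ X, ∀ (P : L × L → Prop) (P' : L × L → Prop),
      (∀ p : L × L, P p → P' (q ⊔ p.1, q ⊔ p.2)) →
      ((Pr A al q).filter P).card ≤ ((V q).filter P').card := by
    intro q hq P P' hPP
    refine Finset.card_le_card_of_injOn (fun p => (q ⊔ p.1, q ⊔ p.2)) ?_ ?_
    · intro p hp
      rw [Finset.mem_coe, Finset.mem_filter] at hp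
      rw [Finset.mem_coe, Finset.mem_filter]
      exact ⟨(mem_Pr.mp hp.1).2.2.1, hPP p hp.2⟩
    · intro p hp p' hp' e
      rw [Finset.mem_coe, Finset.mem_filter] at hp hp'
      obtain ⟨-, -, -, k1, k2⟩ := mem_Pr.mp hp.1
      obtain ⟨-, -, -, k3, k4⟩ := mem_Pr.mp hp'.1
      have e1 : q ⊔ p.1 = q ⊔ p'.1 := congrArg Prod.fst e
      have e2 : q ⊔ p.2 = q ⊔ p'.2 := congrArg Prod.snd e
      rw [e1] at k1
      rw [e2] at k2
      exact Prod.ext (k1.trans k3.symm) (k2.trans k4.symm)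
  have hcard : ∀ q ∈ X, (V q).card ≤ (Pr A al q).card := by
    intro q hq
    refine Finset.card_le_card_of_injOn (fun p => (ρ q p.1, ρ q p.2)) ?_ ?_
    · intro p hp
      rw [Finset.mem_coe] at hp
      obtain ⟨k1, k2, -⟩ := v1 q (hXA q hq) p hp
      obtain ⟨m1, -, m2⟩ := hρ q p.1 k1
      obtain ⟨m3, -, m4⟩ := hρ q p.2 k2
      rw [Finset.mem_coe, mem_Pr]
      refine ⟨m1, m3, ?_, ?_, ?_⟩
      · show (q ⊔ ρ q p.1, q ⊔ ρ q p.2) ∈ V q
        rw [m2, m4]
        exact hp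
      · show ρ q p.1 = ρ q (q ⊔ ρ q p.1)
        rw [m2]
      · show ρ q p.2 = ρ q (q ⊔ ρ q p.2)
        rw [m4]
    · intro p hp p' hp' e
      rw [Finset.mem_coe] at hp hp'
      obtain ⟨k1, k2, -⟩ := v1 q (hXA q hq) p hp
      obtain ⟨k3, k4, -⟩ := v1 q (hXA q hq) p' hp'
      have e1 : ρ q p.1 = ρ q p'.1 := congrArg Prod.fst e
      have e2 : ρ q p.2 = ρ q p'.2 := congrArg Prod.snd e
      refine Prod.ext ?_ ?_
      · rw [← (hρ q p.1 k1).2.2, ← (hρ q p'.1 k3).2.2, e1]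
      · rw [← (hρ q p.2 k2).2.2, ← (hρ q p'.2 k4).2.2, e2]
  let w : L → ℝ := fun q => if q ∈ A then 1 / ((V q).card : ℝ) else 1
  have hwA : ∀ q ∈ A, w q = 1 / ((V q).card : ℝ) := fun q hq => if_pos hq
  have hV0 : ∀ q ∈ A, (0 : ℝ) < (V q).card := fun q hq => by exact_mod_cast v0 q hq
  have hload1 : ∀ l, (A.filter (fun a => a ≤ l)).card ≤ t → ld1 X A al w l ≤ 1 / 60 := by
    intro l hl
    have ht0 : (0 : ℝ) < t := by
      have : 0 < t := by omega
      exact_mod_cast this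
    have h1 : ∀ q ∈ X.filter (· ≤ l), w q *
        ((Pr A al q).filter (fun p => q ⊔ p.1 = l ∨ q ⊔ p.2 = l)).card ≤ 1 / (60 * t) := by
      intro q hq
      have hqX := (Finset.mem_filter.mp hq).1
      have hqA := hXA q hqX
      have h2 := hcmp q hqX (fun p => q ⊔ p.1 = l ∨ q ⊔ p.2 = l) (fun p => p.1 = l ∨ p.2 = l)
        (fun p h => h)
      have h2' : ((Pr A al q).filter (fun p => q ⊔ p.1 = l ∨ q ⊔ p.2 = l)).card ≤
          ((V q).filter (fun p => p.1 = l ∨ p.2 = l)).card := by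
        refine le_trans (le_of_eq ?_) (h2.trans (le_of_eq ?_)) <;> congr!
      have h3 : 60 * t * ((Pr A al q).filter (fun p => q ⊔ p.1 = l ∨ q ⊔ p.2 = l)).card ≤
          (V q).card := (Nat.mul_le_mul_left (60 * t) h2').trans (v2 q hqA l)
      have h4 : (60 : ℝ) * t * ((Pr A al q).filter (fun p => q ⊔ p.1 = l ∨ q ⊔ p.2 = l)).card ≤
          (V q).card := by exact_mod_cast h3
      have h60 : (0 : ℝ) < 60 * (t : ℝ) := mul_pos (by norm_num) ht0
      rw [hwA q hqA, div_mul_eq_mul_div, one_mul, div_le_div_iff₀ (hV0 q hqA) h60,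
        one_mul]
      linarith
    have h5 : ld1 X A al w l ≤ ∑ _q ∈ X.filter (· ≤ l), (1 / (60 * t) : ℝ) := by
      unfold ld1
      exact Finset.sum_le_sum (by convert h1 using 3)
    refine h5.trans ?_
    rw [Finset.sum_const, nsmul_eq_mul]
    have h6 : (X.filter (· ≤ l)).card ≤ t := by
      refine le_trans (Finset.card_le_card ?_) hl
      intro q hq
      rw [Finset.mem_filter] at hq ⊢
      exact ⟨hXA q hq.1, hq.2⟩
    have h7 : ((X.filter (· ≤ l)).card : ℝ) ≤ t := by exact_mod_cast h6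
    calc ((X.filter (· ≤ l)).card : ℝ) * (1 / (60 * t)) ≤ t * (1 / (60 * t)) := by gcongr
      _ = 1 / 60 := by field_simp
  have hload2 : ∀ H, ld2 X A al w H ≤ 25 / 27 := by
    intro H
    have h1 : ∀ q ∈ X.filter (· ≤ H), w q *
        ((Pr A al q).filter (fun p => q ⊔ p.1 ⊔ p.2 = H)).card ≤
        25 / (27 * (A.filter (fun a => a ≤ H)).card) := by
      intro q hq
      have hqX := (Finset.mem_filter.mp hq).1
      have hqA := hXA q hqX
      have hpos : 0 < (A.filter (fun a => a ≤ H)).card :=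
        Finset.card_pos.mpr ⟨q, Finset.mem_filter.mpr ⟨hqA, (Finset.mem_filter.mp hq).2⟩⟩
      have hpos' : (0 : ℝ) < (A.filter (fun a => a ≤ H)).card := by exact_mod_cast hpos
      have h2 := hcmp q hqX (fun p => q ⊔ p.1 ⊔ p.2 = H) (fun p => p.1 ⊔ p.2 = H)
        (fun p h => by
          show (q ⊔ p.1) ⊔ (q ⊔ p.2) = H
          rw [← hjoin]
          exact h)
      have h2' : ((Pr A al q).filter (fun p => q ⊔ p.1 ⊔ p.2 = H)).card ≤
          ((V q).filter (fun p => p.1 ⊔ p.2 = H)).card := by convert h2 using 2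
      have h3 : 27 * (A.filter (fun a => a ≤ H)).card *
          ((Pr A al q).filter (fun p => q ⊔ p.1 ⊔ p.2 = H)).card ≤ 25 * (V q).card :=
        (Nat.mul_le_mul_left (27 * (A.filter (fun a => a ≤ H)).card) h2').trans (v3 q hqA H)
      have h4 : (27 : ℝ) * (A.filter (fun a => a ≤ H)).card *
          ((Pr A al q).filter (fun p => q ⊔ p.1 ⊔ p.2 = H)).card ≤ 25 * (V q).card := by
        exact_mod_cast h3
      have h27 : (0 : ℝ) < 27 * ((A.filter (fun a => a ≤ H)).card : ℝ) :=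
        mul_pos (by norm_num) hpos'
      rw [hwA q hqA, div_mul_eq_mul_div, one_mul, div_le_div_iff₀ (hV0 q hqA) h27]
      linarith
    have h5 : ld2 X A al w H ≤ ∑ _q ∈ X.filter (· ≤ H),
        (25 / (27 * (A.filter (fun a => a ≤ H)).card) : ℝ) := by
      unfold ld2
      exact Finset.sum_le_sum (by convert h1 using 3)
    refine h5.trans ?_
    rw [Finset.sum_const, nsmul_eq_mul]
    have h6 : (X.filter (· ≤ H)).card ≤ (A.filter (fun a => a ≤ H)).card := by
      refine Finset.card_le_card ?_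
      intro q hq
      rw [Finset.mem_filter] at hq ⊢
      exact ⟨hXA q hq.1, hq.2⟩
    have h7 : ((X.filter (· ≤ H)).card : ℝ) ≤ (A.filter (fun a => a ≤ H)).card := by
      exact_mod_cast h6
    rcases Nat.eq_zero_or_pos (A.filter (fun a => a ≤ H)).card with h8 | h8
    · have h9 : (X.filter (· ≤ H)).card = 0 := by omega
      rw [h9]
      norm_num
    · have h9 : (0 : ℝ) < (A.filter (fun a => a ≤ H)).card := by exact_mod_cast h8
      have h27 : (0 : ℝ) < 27 * ((A.filter (fun a => a ≤ H)).card : ℝ) :=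
        mul_pos (by norm_num) h9
      rw [mul_div_assoc', div_le_div_iff₀ h27 (by norm_num)]
      nlinarith
  refine crit4_of_weights (X := X) hb hbr ?_ al ?_ w ?_ ?_ ?_
  · intro q
    rw [hX, Finset.mem_filter]
  · intro q hq c hc d hd h
    obtain ⟨k1, k2, k3⟩ := h
    obtain ⟨m1, m2, m3, m4, m5, m6, m7, m8⟩ := v1 q (hXA q hq) _ k1
    have hqA := hXA q hq
    refine ⟨(rk_Ln hA hqA m1).1, (rk_Ln hA hqA m2).1, ?_, m3, ?_, ?_⟩
    · rw [hjoin]
      exact rk_two hA hqA m1 m2 m3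
    · intro i j hij
      exact ⟨fun e => m4 (by rw [show (q ⊔ c, q ⊔ d).1 = b i ⊔ b j from e]; exact mFL i j hij),
        fun e => m5 (by rw [show (q ⊔ c, q ⊔ d).2 = b i ⊔ b j from e]; exact mFL i j hij)⟩
    · intro i j k hij hik hjk e
      apply m6
      show (q ⊔ c) ⊔ (q ⊔ d) ∈ FP
      rw [← hjoin, e]
      exact mFP i j k hij hik hjk
  · intro q hq
    rw [hwA q (hXA q hq)]
    exact div_pos one_pos (hV0 q (hXA q hq))
  · intro q hq
    rw [hwA q (hXA q hq)]
    have h1 : ((V q).card : ℝ) ≤ (Pr A al q).card := by exact_mod_cast hcard q hq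
    rw [div_mul_eq_mul_div, one_mul, le_div_iff₀ (hV0 q (hXA q hq)), one_mul]
    exact h1
  · intro q hq c hc d hd h
    obtain ⟨k1, k2, k3⟩ := h
    obtain ⟨-, -, -, -, -, -, m7, m8⟩ := v1 q (hXA q hq) _ k1
    have e1 := hload1 (q ⊔ c) m7
    have e2 := hload1 (q ⊔ d) m8
    have e3 := hload2 (q ⊔ c ⊔ d)
    linarith

/-- **(S+)**: few long lines through every point. -/
theorem crit4_plus {A : Finset L} (hA : ∀ a ∈ A, IsAtom a) (hr : rk (A.sup id) = 4)
    {t : ℕ} (ht : 2 ≤ t)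
    (hl : ∀ x ∈ A, ((Ln A x).filter (fun g => t < (A.filter (fun a => a ≤ g)).card)).card ≤ t)
    (hv : ∀ x ∈ A, 10000 * t ^ 2 ≤ (Sh A t x).card)
    (ho : ∀ x ∈ A, ∀ P, rk P = 3 → x ≤ P →
      400 * t ≤ ((Sh A t x).filter (fun g => ¬ g ≤ P)).card) : Crit4 A := by
  apply crit4_of_line_pairs hA hr ht
  intro FL FP cFL cFP x hx
  obtain ⟨b, hb, hbr⟩ := exists_base hA hr
  have : Fintype L := Fintype.ofFinite L
  have hne : ((Finset.univ : Finset L).filter (fun H => rk H = 3)).Nonempty := by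
    obtain ⟨a1, h1, n1⟩ := exists_not_le hr (p := x) (by rw [rk_atom (hA x hx)]; omega)
    have r1 : rk (x ⊔ a1) = 2 := rk_line (hA x hx) (hA a1 h1) (fun h => n1 h.symm.le)
    obtain ⟨a2, h2, n2⟩ := exists_not_le hr (p := x ⊔ a1) (by rw [r1]; omega)
    exact ⟨x ⊔ a1 ⊔ a2, Finset.mem_filter.mpr ⟨Finset.mem_univ _, by
      rw [rk_sup_atom (hA a2 h2) n2, r1]⟩⟩
  obtain ⟨H0, h1, h2⟩ := Finset.exists_max_image _ (fun H => dgs A t x H) hne
  have hH0 : rk H0 = 3 := (Finset.mem_filter.mp h1).2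
  refine exists_pairs9 hA hx ht (hl x hx) hH0 ?_ (hv x hx) ?_ FL FP cFL cFP
  · intro H hH
    exact h2 H (Finset.mem_filter.mpr ⟨Finset.mem_univ _, hH⟩)
  · by_cases hxH : x ≤ H0
    · exact ho x hx H0 hH0 hxH
    · have h3 : (Sh A t x).filter (fun g => ¬ g ≤ H0) = Sh A t x := by
        rw [Finset.filter_eq_self]
        intro g hg hgH
        exact hxH ((rk_Ln hA hx (Sh_sub hg)).2.trans hgH)
      rw [h3]
      refine le_trans ?_ (hv x hx)
      nlinarith

end Pool.Agent.Helper43.SL
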