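import Pool.Agent.Helper52.SL.Basic
import Pool.Agent.Helper43.SL.CountPlus

/-!
# The pairs of short lines of one point

Short line: a line with at most `t` points of `A`.
-/

set_option autoImplicit false
set_option linter.unusedSectionVars false

namespace Pool.Agent.Helper43.SL

open Pool.Agent.Helper28.BPack Pool.Agent.Helper61.Motz Pool.Agent.Helper38.Thick Finset
  Pool.Agent.Helper52.SL
open scoped Classical

variable {L : Type} [Lattice L] [BoundedOrder L] [Finite L] [IsUpperModularLattice L]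

/-- The short lines through `x`. -/
noncomputable def Sh (A : Finset L) (t : ℕ) (x : L) : Finset L :=
  (Ln A x).filter (fun g => (A.filter (fun a => a ≤ g)).card ≤ t)

/-- The number of short lines through `x` below `H`. -/
noncomputable def dgs (A : Finset L) (t : ℕ) (x H : L) : ℕ :=
  ((Sh A t x).filter (fun g => g ≤ H)).card

theorem Sh_sub {A : Finset L} {t : ℕ} {x : L} : Sh A t x ⊆ Ln A x := Finset.filter_subset _ _

theorem card_pairs_le9 {A : Finset L} {t : ℕ} {x H : L} {B : Finset (L × L)}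
    (hB : ∀ p ∈ B, p.1 ∈ Sh A t x ∧ p.2 ∈ Sh A t x ∧ p.1 ≤ H ∧ p.2 ≤ H) :
    B.card ≤ dgs A t x H ^ 2 := by
  have h1 : B ⊆ ((Sh A t x).filter (fun g => g ≤ H)) ×ˢ ((Sh A t x).filter (fun g => g ≤ H)) := by
    intro p hp
    have := hB p hp
    rw [Finset.mem_product, Finset.mem_filter, Finset.mem_filter]
    exact ⟨⟨this.1, this.2.2.1⟩, ⟨this.2.1, this.2.2.2⟩⟩
  have h2 := Finset.card_le_card h1
  rw [Finset.card_product] at h2
  rw [sq]
  exact h2

/-- The points of a plane without long lines through `x` are on its short lines through `x`. -/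
theorem card_plane_le9 {A : Finset L} (hA : ∀ a ∈ A, IsAtom a) {x H : L} (hx : x ∈ A) (hxH : x ≤ H)
    {t : ℕ} (hd : 0 < dgs A t x H)
    (hs : ∀ g ∈ Ln A x, g ≤ H → (A.filter (fun a => a ≤ g)).card ≤ t) :
    (A.filter (fun a => a ≤ H)).card ≤ t * dgs A t x H := by
  have h1 : (A.filter (fun a => a ≤ H)) ⊆ ((Sh A t x).filter (fun g => g ≤ H)).biUnion
      (fun g => A.filter (fun a => a ≤ g)) := by
    intro y hy
    rw [Finset.mem_filter] at hy
    rw [Finset.mem_biUnion]
    by_cases hyx : y = x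
    · obtain ⟨g, hg⟩ := Finset.card_pos.mp hd
      refine ⟨g, hg, ?_⟩
      rw [Finset.mem_filter]
      refine ⟨hy.1, ?_⟩
      rw [hyx]
      exact (rk_Ln hA hx (Sh_sub (Finset.mem_filter.mp hg).1)).2
    · have h2 : x ⊔ y ∈ Ln A x := mem_Ln.mpr ⟨y, hy.1, hyx, rfl⟩
      have h3 : x ⊔ y ≤ H := sup_le hxH hy.2
      refine ⟨x ⊔ y, ?_, ?_⟩
      · rw [Finset.mem_filter, Sh, Finset.mem_filter]
        exact ⟨⟨h2, hs _ h2 h3⟩, h3⟩
      · rw [Finset.mem_filter]
        exact ⟨hy.1, le_sup_right⟩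
  have h2 := (Finset.card_le_card h1).trans (Finset.card_biUnion_le_card_mul _ _ t
    (fun g hg => (Finset.mem_filter.mp (Finset.mem_filter.mp hg).1).2))
  rw [mul_comm]
  exact h2

/-- The pairs of short lines through a point in big planes. -/
theorem card_big_le9 {A : Finset L} (hA : ∀ a ∈ A, IsAtom a) {x H0 : L} (hx : x ∈ A) {t : ℕ}
    (ht2 : 2 ≤ t) (hH0 : rk H0 = 3) (hmax : ∀ H, rk H = 3 → dgs A t x H ≤ dgs A t x H0)
    (hv : 10000 * t ^ 2 ≤ (Sh A t x).card)
    (ho : 400 * t ≤ ((Sh A t x).filter (fun g => ¬ g ≤ H0)).card)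
    (B : Finset (L × L))
    (hB : ∀ p ∈ B, p.1 ∈ (Sh A t x).filter (fun g => ¬ g ≤ H0) ∧ p.2 ∈ Sh A t x ∧ p.1 ≠ p.2 ∧
      7 * ((Sh A t x).filter (fun g => ¬ g ≤ H0)).card * (Sh A t x).card <
        20 * t * dgs A t x (p.1 ⊔ p.2) ^ 3) :
    16 * B.card ≤ 9 * (((Sh A t x).filter (fun g => ¬ g ≤ H0)).card * (Sh A t x).card) := by
  set R := Sh A t x with hR
  have hRL : R ⊆ Ln A x := Sh_sub
  set O := R.filter (fun g => ¬ g ≤ H0) with hO
  have hOR : O ⊆ R := Finset.filter_subset _ _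
  have hovle : O.card ≤ R.card := Finset.card_le_card hOR
  have hsplit : O.card + dgs A t x H0 = R.card := by
    have := Finset.card_filter_add_card_filter_not (s := R) (fun g => g ≤ H0)
    rw [dgs, ← hR, hO]
    omega
  let T := B.image (fun p => p.1 ⊔ p.2)
  let I : L → Finset L := fun H => O.filter (fun g => g ≤ H)
  have hT : ∀ H ∈ T, rk H = 3 ∧ H ≠ H0 ∧ 7 * O.card * R.card < 20 * t * dgs A t x H ^ 3 := by
    intro H hH
    obtain ⟨p, hp, rfl⟩ := Finset.mem_image.mp hH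
    obtain ⟨h1, h2, h3, h4⟩ := hB p hp
    refine ⟨rk_two hA hx (hRL (hOR h1)) (hRL h2) h3, ?_, h4⟩
    intro h5
    have h6 : p.1 ≤ p.1 ⊔ p.2 := le_sup_left
    rw [h5] at h6
    exact (Finset.mem_filter.mp h1).2 h6
  have hIO : ∀ H ∈ T, I H ⊆ O := fun H _ => Finset.filter_subset _ _
  have hI1 : ∀ H ∈ T, ∀ H' ∈ T, H ≠ H' → (I H ∩ I H').card ≤ 1 := by
    intro H hH H' hH' hne
    apply Finset.card_le_one.mpr
    intro g hg g' hg'
    by_contra hgg
    have hg1 := Finset.mem_filter.mp (Finset.mem_inter.mp hg).1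
    have hg2 := Finset.mem_filter.mp (Finset.mem_inter.mp hg).2
    have hg1' := Finset.mem_filter.mp (Finset.mem_inter.mp hg').1
    have hg2' := Finset.mem_filter.mp (Finset.mem_inter.mp hg').2
    have h1 := eq_plane hA hx (hRL (hOR hg1.1)) (hRL (hOR hg1'.1)) hgg (hT H hH).1 hg1.2 hg1'.2
    have h2 := eq_plane hA hx (hRL (hOR hg1.1)) (hRL (hOR hg1'.1)) hgg (hT H' hH').1 hg2.2 hg2'.2
    exact hne (h1.symm.trans h2)
  have hId : ∀ H ∈ T, dgs A t x H - 1 ≤ (I H).card := by
    intro H hH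
    have h1 : (R.filter (fun g => g ≤ H)) ⊆ I H ∪ (R.filter (fun g => g ≤ H ∧ g ≤ H0)) := by
      intro g hg
      rw [Finset.mem_filter] at hg
      rw [Finset.mem_union]
      by_cases h2 : g ≤ H0
      · right
        rw [Finset.mem_filter]
        exact ⟨hg.1, hg.2, h2⟩
      · left
        rw [Finset.mem_filter, hO, Finset.mem_filter]
        exact ⟨⟨hg.1, h2⟩, hg.2⟩
    have h2 : (R.filter (fun g => g ≤ H ∧ g ≤ H0)).card ≤ 1 := by
      apply Finset.card_le_one.mpr
      intro g hg g' hg'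
      by_contra hgg
      rw [Finset.mem_filter] at hg hg'
      have h1 := eq_plane hA hx (hRL hg.1) (hRL hg'.1) hgg (hT H hH).1 hg.2.1 hg'.2.1
      have h2 := eq_plane hA hx (hRL hg.1) (hRL hg'.1) hgg hH0 hg.2.2 hg'.2.2
      exact (hT H hH).2.1 (h1.symm.trans h2)
    have h3 := (Finset.card_le_card h1).trans (Finset.card_union_le _ _)
    have h4 : dgs A t x H = (R.filter (fun g => g ≤ H)).card := rfl
    omega
  have hbig : ∀ H ∈ T, 9 * O.card ≤ (I H).card ^ 2 := by
    intro H hH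
    have h1 := big_sq9 ht2 ho hv hovle (hT H hH).2.2
    exact h1.trans (Nat.pow_le_pow_left (hId H hH) 2)
  have hsum := sum_card_le9 O T I hIO hI1 hbig
  have hfib : ∀ H ∈ T, 2 * (B.filter (fun p => p.1 ⊔ p.2 = H)).card ≤ (I H).card * R.card := by
    intro H hH
    have h1 : B.filter (fun p => p.1 ⊔ p.2 = H) ⊆ (I H).biUnion
        (fun g => ((R.filter (fun g => g ≤ H)).erase g).image (fun h => (g, h))) := by
      intro p hp
      rw [Finset.mem_filter] at hp
      obtain ⟨h2, h3, h4, h5⟩ := hB p hp.1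
      rw [Finset.mem_biUnion]
      refine ⟨p.1, ?_, ?_⟩
      · rw [Finset.mem_filter]
        exact ⟨h2, hp.2 ▸ le_sup_left⟩
      · rw [Finset.mem_image]
        refine ⟨p.2, ?_, rfl⟩
        rw [Finset.mem_erase, Finset.mem_filter]
        exact ⟨Ne.symm h4, h3, hp.2 ▸ le_sup_right⟩
    have h2 := (Finset.card_le_card h1).trans (Finset.card_biUnion_le_card_mul _ _
      (dgs A t x H - 1)
      (by
        intro g hg
        refine Finset.card_image_le.trans ?_
        have h3 : g ∈ R.filter (fun g => g ≤ H) := by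
          rw [Finset.mem_filter] at hg ⊢
          exact ⟨hOR hg.1, hg.2⟩
        rw [Finset.card_erase_of_mem h3]
        exact le_refl _))
    have h3 : 2 * (dgs A t x H - 1) ≤ R.card := by
      have h4 := hId H hH
      have h5 : (I H).card ≤ O.card := Finset.card_le_card (hIO H hH)
      have h6 := hmax H (hT H hH).1
      omega
    calc 2 * (B.filter (fun p => p.1 ⊔ p.2 = H)).card ≤ 2 * ((I H).card * (dgs A t x H - 1)) := by
          gcongr
      _ = (I H).card * (2 * (dgs A t x H - 1)) := by ring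
      _ ≤ (I H).card * R.card := by gcongr
  have hBsum : B.card = ∑ H ∈ T, (B.filter (fun p => p.1 ⊔ p.2 = H)).card :=
    Finset.card_eq_sum_card_image _ _
  have h2B : 2 * B.card ≤ (∑ H ∈ T, (I H).card) * R.card := by
    rw [hBsum, Finset.mul_sum, Finset.sum_mul]
    exact Finset.sum_le_sum hfib
  have h6B : 8 * (2 * B.card) ≤ 9 * O.card * R.card := by
    calc 8 * (2 * B.card) ≤ 8 * ((∑ H ∈ T, (I H).card) * R.card) := by gcongr
      _ = (8 * ∑ H ∈ T, (I H).card) * R.card := by ring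
      _ ≤ 9 * O.card * R.card := by gcongr
  have e : 9 * O.card * R.card = 9 * (O.card * R.card) := by ring
  omega

/-- The pairs of short lines in planes which contain a long line through the point. -/
theorem card_long_le9 {A : Finset L} (hA : ∀ a ∈ A, IsAtom a) {x : L} (hx : x ∈ A) {t : ℕ}
    (ht2 : 2 ≤ t) (O : Finset L) (hO : O ⊆ Sh A t x)
    (hl : ((Ln A x).filter (fun g => t < (A.filter (fun a => a ≤ g)).card)).card ≤ t)
    (B : Finset (L × L))
    (hB : ∀ p ∈ B, p.1 ∈ O ∧ p.2 ∈ Sh A t x ∧ p.1 ≠ p.2 ∧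
      30 * t * dgs A t x (p.1 ⊔ p.2) ≤ (Sh A t x).card ∧
      ∃ l ∈ (Ln A x).filter (fun g => t < (A.filter (fun a => a ≤ g)).card), l ≤ p.1 ⊔ p.2) :
    30 * B.card ≤ O.card * (Sh A t x).card := by
  set R := Sh A t x with hR
  have hRL : R ⊆ Ln A x := Sh_sub
  set K := (Ln A x).filter (fun g => t < (A.filter (fun a => a ≤ g)).card) with hK
  have h1 : B ⊆ K.biUnion (fun l => B.filter (fun p => l ≤ p.1 ⊔ p.2)) := by
    intro p hp
    obtain ⟨-, -, -, -, l, hl, hlp⟩ := hB p hp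
    rw [Finset.mem_biUnion]
    exact ⟨l, hl, Finset.mem_filter.mpr ⟨hp, hlp⟩⟩
  have h2 : ∀ l ∈ K, 30 * t * (B.filter (fun p => l ≤ p.1 ⊔ p.2)).card ≤ O.card * R.card := by
    intro l hl
    rw [hK, Finset.mem_filter] at hl
    let O' := O.filter (fun g => 30 * t * dgs A t x (g ⊔ l) ≤ R.card)
    have h3 : B.filter (fun p => l ≤ p.1 ⊔ p.2) ⊆
        O'.biUnion (fun g => (R.filter (fun h => h ≤ g ⊔ l)).image (fun h => (g, h))) := by
      intro p hp
      rw [Finset.mem_filter] at hp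
      obtain ⟨h4, h5, h6, h7, -⟩ := hB p hp.1
      have hne : p.1 ≠ l := by
        intro h
        have h8 := (Finset.mem_filter.mp (hO h4)).2
        rw [h] at h8
        exact absurd hl.2 (not_lt.mpr h8)
      have h9 : p.1 ⊔ l = p.1 ⊔ p.2 :=
        eq_plane hA hx (hRL (hO h4)) hl.1 hne (rk_two hA hx (hRL (hO h4)) (hRL h5) h6)
          le_sup_left hp.2
      rw [Finset.mem_biUnion]
      refine ⟨p.1, ?_, ?_⟩
      · rw [Finset.mem_filter]
        refine ⟨h4, ?_⟩
        rw [h9]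
        exact h7
      · rw [Finset.mem_image]
        refine ⟨p.2, ?_, rfl⟩
        rw [Finset.mem_filter]
        refine ⟨h5, ?_⟩
        rw [h9]
        exact le_sup_right
    have h4 := (Finset.card_le_card h3).trans Finset.card_biUnion_le
    calc 30 * t * (B.filter (fun p => l ≤ p.1 ⊔ p.2)).card
        ≤ 30 * t * ∑ g ∈ O', ((R.filter (fun h => h ≤ g ⊔ l)).image (fun h => (g, h))).card := by
          gcongr
      _ = ∑ g ∈ O', 30 * t * ((R.filter (fun h => h ≤ g ⊔ l)).image (fun h => (g, h))).card :=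
          Finset.mul_sum _ _ _
      _ ≤ ∑ _g ∈ O', R.card := by
          apply Finset.sum_le_sum
          intro g hg
          have h5 := (Finset.mem_filter.mp hg).2
          have h6 : ((R.filter (fun h => h ≤ g ⊔ l)).image (fun h => (g, h))).card ≤
              dgs A t x (g ⊔ l) := Finset.card_image_le
          exact (Nat.mul_le_mul_left _ h6).trans h5
      _ = O'.card * R.card := by rw [Finset.sum_const, smul_eq_mul]
      _ ≤ O.card * R.card := by
          have : O'.card ≤ O.card := Finset.card_le_card (Finset.filter_subset _ _)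
          gcongr
  have h3 := (Finset.card_le_card h1).trans Finset.card_biUnion_le
  have h4 : t * (30 * B.card) ≤ t * (O.card * R.card) := by
    calc t * (30 * B.card) = 30 * t * B.card := by ring
      _ ≤ 30 * t * ∑ l ∈ K, (B.filter (fun p => l ≤ p.1 ⊔ p.2)).card := by gcongr
      _ = ∑ l ∈ K, 30 * t * (B.filter (fun p => l ≤ p.1 ⊔ p.2)).card := Finset.mul_sum _ _ _
      _ ≤ ∑ _l ∈ K, O.card * R.card := Finset.sum_le_sum h2
      _ = K.card * (O.card * R.card) := by rw [Finset.sum_const, smul_eq_mul]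
      _ ≤ t * (O.card * R.card) := by gcongr
  exact Nat.le_of_mul_le_mul_left h4 (by omega)

/-- **The pairs of a point `x`**: many of them, in planes which are not big and without long lines
through `x`. -/
theorem exists_pairs9 {A : Finset L} (hA : ∀ a ∈ A, IsAtom a) {x H0 : L} (hx : x ∈ A) {t : ℕ}
    (ht2 : 2 ≤ t)
    (hl : ((Ln A x).filter (fun g => t < (A.filter (fun a => a ≤ g)).card)).card ≤ t)
    (hH0 : rk H0 = 3) (hmax : ∀ H, rk H = 3 → dgs A t x H ≤ dgs A t x H0)
    (hv : 10000 * t ^ 2 ≤ (Sh A t x).card)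
    (ho : 400 * t ≤ ((Sh A t x).filter (fun g => ¬ g ≤ H0)).card)
    (FL FP : Finset L) (hFL : FL.card ≤ 6) (hFP : FP.card ≤ 4) :
    ∃ V : Finset (L × L), 0 < V.card ∧
      (∀ p ∈ V, p.1 ∈ Ln A x ∧ p.2 ∈ Ln A x ∧ p.1 ≠ p.2 ∧ p.1 ∉ FL ∧ p.2 ∉ FL ∧
        p.1 ⊔ p.2 ∉ FP ∧ (A.filter (fun a => a ≤ p.1)).card ≤ t ∧
        (A.filter (fun a => a ≤ p.2)).card ≤ t) ∧
      (∀ g, 60 * t * (V.filter (fun p => p.1 = g ∨ p.2 = g)).card ≤ V.card) ∧
      (∀ H, 27 * (A.filter (fun a => a ≤ H)).card * (V.filter (fun p => p.1 ⊔ p.2 = H)).card ≤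
        25 * V.card) := by
  set R := Sh A t x with hR
  have hRL : R ⊆ Ln A x := Sh_sub
  set O := R.filter (fun g => ¬ g ≤ H0) with hO
  have hOR : O ⊆ R := Finset.filter_subset _ _
  have hovle : O.card ≤ R.card := Finset.card_le_card hOR
  set o := O.card with hoo
  set v := R.card with hvv
  set K := (Ln A x).filter (fun g => t < (A.filter (fun a => a ≤ g)).card) with hK
  let big : L × L → Prop := fun p => 7 * o * v < 20 * t * dgs A t x (p.1 ⊔ p.2) ^ 3
  let lng : L × L → Prop := fun p => ∃ l ∈ K, l ≤ p.1 ⊔ p.2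
  let PP := (O ×ˢ R).filter (fun p => p.1 ≠ p.2)
  let V := PP.filter (fun p => ¬ big p ∧ ¬ lng p ∧ p.1 ∉ FL ∧ p.2 ∉ FL ∧ p.1 ⊔ p.2 ∉ FP)
  have hPPm : ∀ p, p ∈ PP ↔ (p.1 ∈ O ∧ p.2 ∈ R) ∧ p.1 ≠ p.2 := fun p => by
    rw [Finset.mem_filter, Finset.mem_product]
  have hVm : ∀ p, p ∈ V ↔ p ∈ PP ∧ ¬ big p ∧ ¬ lng p ∧ p.1 ∉ FL ∧ p.2 ∉ FL ∧
      p.1 ⊔ p.2 ∉ FP := fun p => by
    rw [Finset.mem_filter]
  -- the number of pairs
  have hPP : o * v ≤ PP.card + o := by
    have h1 := Finset.card_filter_add_card_filter_not (s := O ×ˢ R)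
      (fun p : L × L => p.1 ≠ p.2)
    have h2 : ((O ×ˢ R).filter (fun p : L × L => ¬ p.1 ≠ p.2)).card ≤ o := by
      refine Finset.card_le_card_of_injOn (fun p => p.1) ?_ ?_
      · intro p hp
        rw [Finset.mem_coe, Finset.mem_filter, Finset.mem_product] at hp
        exact hp.1.1
      · intro p hp p' hp' h
        rw [Finset.mem_coe, Finset.mem_filter] at hp hp'
        have e1 := not_not.mp hp.2
        have e2 := not_not.mp hp'.2
        have h' : p.1 = p'.1 := h
        exact Prod.ext h' (e1.symm.trans (h'.trans e2))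
    rw [Finset.card_product] at h1
    have h3 : PP.card = ((O ×ˢ R).filter (fun p : L × L => p.1 ≠ p.2)).card := rfl
    rw [← h3, ← hoo, ← hvv] at h1
    omega
  let B1 := PP.filter (fun p => big p)
  let B2 := PP.filter (fun p => p.1 ∈ FL ∨ p.2 ∈ FL)
  let B3 := PP.filter (fun p => ¬ big p ∧ p.1 ⊔ p.2 ∈ FP)
  let B4 := PP.filter (fun p => ¬ big p ∧ lng p)
  have hcover : PP.card ≤ V.card + B1.card + B2.card + B3.card + B4.card := by
    have h1 : PP ⊆ V ∪ B1 ∪ B2 ∪ B3 ∪ B4 := by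
      intro p hp
      simp only [Finset.mem_union]
      by_cases h2 : big p
      · exact Or.inl (Or.inl (Or.inl (Or.inr (Finset.mem_filter.mpr ⟨hp, h2⟩))))
      · by_cases h3 : p.1 ∈ FL ∨ p.2 ∈ FL
        · exact Or.inl (Or.inl (Or.inr (Finset.mem_filter.mpr ⟨hp, h3⟩)))
        · by_cases h4 : p.1 ⊔ p.2 ∈ FP
          · exact Or.inl (Or.inr (Finset.mem_filter.mpr ⟨hp, h2, h4⟩))
          · by_cases h5 : lng p
            · exact Or.inr (Finset.mem_filter.mpr ⟨hp, h2, h5⟩)
            · push Not at h3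
              exact Or.inl (Or.inl (Or.inl (Or.inl ((hVm p).mpr ⟨hp, h2, h5, h3.1, h3.2, h4⟩))))
    have h2 := Finset.card_le_card h1
    have h6 := Finset.card_union_le (V ∪ B1 ∪ B2 ∪ B3) B4
    have h3 := Finset.card_union_le (V ∪ B1 ∪ B2) B3
    have h4 := Finset.card_union_le (V ∪ B1) B2
    have h5 := Finset.card_union_le V B1
    omega
  have hB1 : 16 * B1.card ≤ 9 * (o * v) := by
    apply card_big_le9 hA hx ht2 hH0 hmax hv ho B1
    intro p hp
    obtain ⟨h1, h2⟩ := Finset.mem_filter.mp hp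
    obtain ⟨⟨h3, h4⟩, h5⟩ := (hPPm p).mp h1
    exact ⟨h3, h4, h5, h2⟩
  have hB4 : 30 * B4.card ≤ o * v := by
    apply card_long_le9 hA hx ht2 O hOR hl B4
    intro p hp
    obtain ⟨h1, h2, h6⟩ := Finset.mem_filter.mp hp
    obtain ⟨⟨h3, h4⟩, h5⟩ := (hPPm p).mp h1
    refine ⟨h3, h4, h5, ?_, h6⟩
    exact small_lin9 ht2 hv hovle (not_lt.mp h2)
  have hline : ∀ (B : Finset (L × L)) (g : L), B ⊆ PP →
      (B.filter (fun p => p.1 = g ∨ p.2 = g)).card ≤ 2 * v := by
    intro B g hBP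
    have h1 : B.filter (fun p => p.1 = g ∨ p.2 = g) ⊆ ({g} ×ˢ R) ∪ (R ×ˢ {g}) := by
      intro p hp
      rw [Finset.mem_filter] at hp
      obtain ⟨⟨h3, h4⟩, h5⟩ := (hPPm p).mp (hBP hp.1)
      rw [Finset.mem_union, Finset.mem_product, Finset.mem_product]
      rcases hp.2 with h | h
      · left
        exact ⟨Finset.mem_singleton.mpr h, h4⟩
      · right
        exact ⟨hOR h3, Finset.mem_singleton.mpr h⟩
    have h2 := (Finset.card_le_card h1).trans (Finset.card_union_le _ _)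
    rw [Finset.card_product, Finset.card_product, Finset.card_singleton] at h2
    omega
  have hB2 : B2.card ≤ 12 * v := by
    have h1 : B2 ⊆ FL.biUnion (fun f => PP.filter (fun p => p.1 = f ∨ p.2 = f)) := by
      intro p hp
      rw [Finset.mem_filter] at hp
      rw [Finset.mem_biUnion]
      rcases hp.2 with h | h
      · exact ⟨p.1, h, Finset.mem_filter.mpr ⟨hp.1, Or.inl rfl⟩⟩
      · exact ⟨p.2, h, Finset.mem_filter.mpr ⟨hp.1, Or.inr rfl⟩⟩
    have h2 := (Finset.card_le_card h1).trans (Finset.card_biUnion_le_card_mul _ _ (2 * v)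
      (fun f _ => hline PP f (Finset.Subset.refl _)))
    have h3 : FL.card * (2 * v) ≤ 6 * (2 * v) := by gcongr
    omega
  have hplane : ∀ (B : Finset (L × L)) (H : L), B ⊆ PP →
      (B.filter (fun p => p.1 ⊔ p.2 = H)).card ≤ dgs A t x H ^ 2 := by
    intro B H hBP
    apply card_pairs_le9
    intro p hp
    rw [Finset.mem_filter] at hp
    obtain ⟨⟨h3, h4⟩, h5⟩ := (hPPm p).mp (hBP hp.1)
    exact ⟨hOR h3, h4, hp.2 ▸ le_sup_left, hp.2 ▸ le_sup_right⟩
  have hB3 : 400 * B3.card ≤ 4 * (o * v) := by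
    have h1 : B3 ⊆ FP.biUnion (fun H => B3.filter (fun p => p.1 ⊔ p.2 = H)) := by
      intro p hp
      rw [Finset.mem_biUnion]
      exact ⟨p.1 ⊔ p.2, (Finset.mem_filter.mp hp).2.2, Finset.mem_filter.mpr ⟨hp, rfl⟩⟩
    have h2 := (Finset.card_le_card h1).trans Finset.card_biUnion_le
    have h3 : ∀ H ∈ FP, 400 * (B3.filter (fun p => p.1 ⊔ p.2 = H)).card ≤ o * v := by
      intro H _
      rcases Finset.eq_empty_or_nonempty (B3.filter (fun p => p.1 ⊔ p.2 = H)) with h4 | h4
      · rw [h4]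
        simp
      · obtain ⟨p, hp⟩ := h4
        rw [Finset.mem_filter] at hp
        have h5 := (Finset.mem_filter.mp hp.1).2.1
        have h6 : 20 * t * dgs A t x (p.1 ⊔ p.2) ^ 3 ≤ 7 * o * v := not_lt.mp h5
        rw [hp.2] at h6
        have h7 := small_sq9 ht2 ho hv h6
        have h8 := hplane B3 H (Finset.filter_subset _ _)
        calc 400 * (B3.filter (fun p => p.1 ⊔ p.2 = H)).card ≤ 400 * dgs A t x H ^ 2 := by gcongr
          _ ≤ o * v := h7
    calc 400 * B3.card ≤ 400 * ∑ H ∈ FP, (B3.filter (fun p => p.1 ⊔ p.2 = H)).card := by gcongr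
      _ = ∑ H ∈ FP, 400 * (B3.filter (fun p => p.1 ⊔ p.2 = H)).card := Finset.mul_sum _ _ _
      _ ≤ ∑ _H ∈ FP, o * v := Finset.sum_le_sum h3
      _ = FP.card * (o * v) := by rw [Finset.sum_const, smul_eq_mul]
      _ ≤ 4 * (o * v) := by gcongr
  have hov1 : 800 * v ≤ o * v := by
    have : 800 ≤ o := by omega
    gcongr
  have hov2 : 40000 * o ≤ o * v := by
    have h1 : 2 ^ 2 ≤ t ^ 2 := Nat.pow_le_pow_left ht2 2
    have h2 : 40000 ≤ v := by omega
    calc 40000 * o ≤ v * o := by gcongr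
      _ = o * v := by ring
  have hZ : 9477 * (o * v) ≤ 25000 * V.card := by omega
  have hsv : 400 * t * v ≤ o * v := by gcongr
  have hovpos : 0 < o * v := by
    have h1 : 0 < o := by omega
    have h2 : 0 < v := by omega
    positivity
  refine ⟨V, ?_, ?_, ?_, ?_⟩
  · omega
  · intro p hp
    obtain ⟨h1, h2, h9, h3, h4, h5⟩ := (hVm p).mp hp
    obtain ⟨⟨h6, h7⟩, h8⟩ := (hPPm p).mp h1
    exact ⟨hRL (hOR h6), hRL h7, h8, h3, h4, h5, (Finset.mem_filter.mp (hOR h6)).2,
      (Finset.mem_filter.mp h7).2⟩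
  · intro g
    have h1 := hline V g (Finset.filter_subset _ _)
    have h2 : 60 * t * (V.filter (fun p => p.1 = g ∨ p.2 = g)).card ≤ 60 * t * (2 * v) := by
      gcongr
    have h3 : 60 * t * (2 * v) * 10 = 3 * (400 * t * v) := by ring
    omega
  · intro H
    rcases Finset.eq_empty_or_nonempty (V.filter (fun p => p.1 ⊔ p.2 = H)) with h4 | h4
    · rw [h4]
      simp
    · obtain ⟨p, hp⟩ := h4
      rw [Finset.mem_filter] at hp
      obtain ⟨h1, h2, hlng, h3, h4, h5⟩ := (hVm p).mp hp.1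
      obtain ⟨⟨h6, h7⟩, h8⟩ := (hPPm p).mp h1
      have h9 : 20 * t * dgs A t x H ^ 3 ≤ 7 * o * v := by
        have := not_lt.mp h2
        rw [hp.2] at this
        exact this
      have hgH : p.1 ≤ H := hp.2 ▸ le_sup_left
      have hxH : x ≤ H := (rk_Ln hA hx (hRL (hOR h6))).2.trans hgH
      have hd : 0 < dgs A t x H := Finset.card_pos.mpr ⟨p.1, Finset.mem_filter.mpr ⟨hOR h6, hgH⟩⟩
      have hsh : ∀ g ∈ Ln A x, g ≤ H → (A.filter (fun a => a ≤ g)).card ≤ t := by
        intro g hg hgH'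
        by_contra hc
        push Not at hc
        exact hlng ⟨g, Finset.mem_filter.mpr ⟨hg, hc⟩, hp.2 ▸ hgH'⟩
      have h10 := card_plane_le9 hA hx hxH hd hsh
      have h11 := hplane V H (Finset.filter_subset _ _)
      have h12 : 27 * (A.filter (fun a => a ≤ H)).card * (V.filter (fun p => p.1 ⊔ p.2 = H)).card ≤
          27 * (t * dgs A t x H) * dgs A t x H ^ 2 := by gcongr
      have h13 : 20 * (27 * (t * dgs A t x H) * dgs A t x H ^ 2) =
          27 * (20 * t * dgs A t x H ^ 3) := by ring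
      have h14 : 7 * o * v = 7 * (o * v) := by ring
      omega

end Pool.Agent.Helper43.SL
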