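import Pool.Agent.Helper43.SL.MainPlus
import Pool.Agent.Helper63.CR.Wrap

/-!
# Rank four: few long lines through every point, the packing
-/

set_option autoImplicit false
set_option linter.unusedSectionVars false

namespace Pool.Agent.Helper43.SL

open Pool.Agent.Helper28.BPack Pool.Agent.Helper61.Motz Pool.Agent.Helper38.Thick Finset
  Pool.Agent.Helper52.SL Pool.Agent.Helper63.CR

theorem rk_of_height' {L : Type} [Lattice L] [BoundedOrder L] [Finite L]
    [IsUpperModularLattice L] {a : L} {n : ℕ} (h : Order.height a = (n : ℕ∞)) : rk a = n := by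
  rw [← coe_rk] at h
  exact_mod_cast h

/-- The lines through an atom are the elements of rank two above it. -/
theorem mem_Ln_iff {L : Type} [Lattice L] [BoundedOrder L] [Fintype L]
    [IsUpperModularLattice L]
    (hat : ∀ x : L, ∃ s : Finset L, (∀ a ∈ s, IsAtom a) ∧ s.sup id = x)
    {A : Finset L} (hA : ∀ a, a ∈ A ↔ IsAtom a) {x : L} (hx : IsAtom x) (g : L) :
    g ∈ Ln A x ↔ Order.height g = 2 ∧ x ≤ g := by
  constructor
  · intro h
    obtain ⟨h1, h2⟩ := rk_Ln (fun a ha => (hA a).mp ha) ((hA x).mpr hx) h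
    exact ⟨height_of_rk' h1, h2⟩
  · rintro ⟨h1, h2⟩
    have h3 : rk g = 2 := rk_of_height' h1
    obtain ⟨s, hs, hsg⟩ := hat g
    have h4 : ∃ y ∈ s, ¬ y ≤ x := by
      by_contra hcon
      push Not at hcon
      have h5 : g ≤ x := by
        rw [← hsg]
        exact Finset.sup_le (fun y hy => hcon y hy)
      have h6 : rk g ≤ rk x := rk_mono h5
      rw [rk_atom hx] at h6
      omega
    obtain ⟨y, hy, hyx⟩ := h4
    have hyg : y ≤ g := by
      rw [← hsg]
      exact Finset.le_sup (f := id) hy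
    have hne : y ≠ x := fun e => hyx e.le
    refine mem_Ln.mpr ⟨y, (hA y).mpr (hs y hy), hne, ?_⟩
    refine eq_of_le_of_rk (sup_le h2 hyg) ?_
    rw [rk_line hx (hs y hy) (Ne.symm hne), h3]

/-- **(S+), the packing.** -/
theorem packing_plus {L : Type} [Lattice L] [BoundedOrder L] [Fintype L]
    [IsUpperModularLattice L]
    (hat : ∀ x : L, ∃ s : Finset L, (∀ a ∈ s, IsAtom a) ∧ s.sup id = x)
    (hr : Order.height (⊤ : L) = 4)
    (h : ∃ t : ℕ, 2 ≤ t ∧ ∀ x : L, IsAtom x →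
      {g : L | Order.height g = 2 ∧ x ≤ g ∧ t < {a : L | IsAtom a ∧ a ≤ g}.ncard}.ncard ≤ t ∧
      10000 * t ^ 2 ≤
        {g : L | Order.height g = 2 ∧ x ≤ g ∧ {a : L | IsAtom a ∧ a ≤ g}.ncard ≤ t}.ncard ∧
      ∀ P : L, Order.height P = 3 → x ≤ P →
        400 * t ≤ {g : L | Order.height g = 2 ∧ x ≤ g ∧ ¬ g ≤ P ∧
          {a : L | IsAtom a ∧ a ≤ g}.ncard ≤ t}.ncard) :
    ∃ (t : ℕ) (n : Fin t → ℕ) (φ : ∀ i : Fin t, Set (Fin (n i)) → L),
      (∀ i, Function.Injective (φ i)) ∧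
      (∀ i (a b : Set (Fin (n i))), a ⋖ b → φ i a ⋖ φ i b) ∧
      (∀ i, Order.height (⊤ : L) ≤ Order.height (φ i ⊥) + Order.height (φ i ⊤)) ∧
      (∀ x : L, ∃! p : (Σ i : Fin t, Set (Fin (n i))), φ p.1 p.2 = x) := by
  classical
  obtain ⟨t, ht, h⟩ := h
  refine packing_of_crit4 hat hr ?_
  intro A hA hrA
  have hA' : ∀ a ∈ A, IsAtom a := fun a ha => (hA a).mp ha
  have key : ∀ x ∈ A, ∀ p : L → Prop, ∀ s : Finset L,
      (∀ g, g ∈ s ↔ g ∈ Ln A x ∧ p g) →
      {g : L | Order.height g = 2 ∧ x ≤ g ∧ p g}.ncard = s.card := by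
    intro x hx p s hs
    have h2 : {g : L | Order.height g = 2 ∧ x ≤ g ∧ p g} = (s : Set L) := by
      ext g
      rw [Set.mem_setOf_eq, Finset.mem_coe, hs, mem_Ln_iff hat hA (hA' x hx), and_assoc]
    rw [h2, Set.ncard_coe_finset]
  refine crit4_plus hA' hrA ht ?_ ?_ ?_
  · intro x hx
    obtain ⟨h1, -, -⟩ := h x (hA' x hx)
    rw [key x hx _ ((Ln A x).filter (fun g => t < (A.filter (fun a => a ≤ g)).card))
      (fun g => ?_)] at h1
    · convert h1
    · rw [Finset.mem_filter, ncard_atoms hA]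
  · intro x hx
    obtain ⟨-, h1, -⟩ := h x (hA' x hx)
    rw [key x hx _ (Sh A t x) (fun g => ?_)] at h1
    · exact h1
    · rw [Sh, Finset.mem_filter, ncard_atoms hA]
  · intro x hx P hP hxP
    obtain ⟨-, -, h1⟩ := h x (hA' x hx)
    have h2 := h1 P (height_of_rk' hP) hxP
    rw [key x hx _ ((Sh A t x).filter (fun g => ¬ g ≤ P)) (fun g => ?_)] at h2
    · convert h2
    · rw [Finset.mem_filter, Sh, Finset.mem_filter, ncard_atoms hA]
      constructor
      · rintro ⟨⟨a1, a2⟩, a3⟩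
        exact ⟨a1, a3, by convert a2⟩
      · rintro ⟨a1, a3, a2⟩
        exact ⟨⟨a1, by convert a2⟩, a3⟩

end Pool.Agent.Helper43.SL
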